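import Mathlib
import Pool.Agent.N715.AD.Tam
import Pool.Agent.U218.PC.Fin

/-!
The tame case.
-/

set_option autoImplicit false
set_option linter.unusedSectionVars false

namespace Pool.Agent.U218.PG

open NumberField Module IsDedekindDomain
open Pool.Agent.W238.Leh (act canH Bds hC canH_smul)
open Pool.Agent.H627.LP (Wnd act_iter_smul)
open Pool.Agent.H420R3 (mi nv TP ew mem_TP)
open Pool.Agent.R829.DL (canH_hom iter_map)
open Pool.Agent.U218.PC
open Pool.Agent.N715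

noncomputable section

/-- the tame case -/
theorem tame2 (m₀ : ℕ) (hm₀ : 1 ≤ m₀) (K : Type) [Field K] [NumberField K] (q : ℕ) (hq : 2 ≤ q)
    (F : Fin (1 + 1) → MvPolynomial (Fin (1 + 1)) K) (hF : ∀ i, (F i).IsHomogeneous q)
    (hmor : ∀ z : Fin (1 + 1) → AlgebraicClosure K, (∀ i, MvPolynomial.aeval z (F i) = 0) → z = 0)
    (a : ℕ) (A : ℝ) (hB : Bds F q A a) (r : ℕ) : ∃ C : ℕ, 1 ≤ C ∧
    ∀ (L : Type) [Field L] [NumberField L] [Algebra K L] [IsGalois K L]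
      (E : IntermediateField K L) (_ : PCE m₀ 1 K E) (x : Fin (1 + 1) → L), x 1 ≠ 0 →
      Wnd F x → (minpoly E (x 0 / x 1)).natDegree ≤ r →
      ∀ (P : Ideal (𝓞 K)) [P.IsMaximal], P ≠ ⊥ → (C : 𝓞 K) ∉ P →
      (∀ p : ℕ, p.Prime → (p : 𝓞 K) ∈ P → ∀ u ∈ TP E P, ¬ p ∣ (mi u).ramificationIdx (𝓞 K)) →
      1 / (C * (P.absNorm : ℝ) ^ C) ≤ canH F q x := by
  obtain ⟨C, hC, hmain⟩ := PC.main AC.numIndC AC.primeSelC m₀ 1 hm₀ K q hq F hF hmor 1 r
  refine ⟨C, hC, ?_⟩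
  intro L _ _ _ _ E hE x hx1 hw hr P hPm hP0 hCP htame
  have hfd : FiniteDimensional K L := Pool.Agent.R829.DL.fd_inter K L
  obtain ⟨M, hM⟩ : ∃ M : IntermediateField E L, IntermediateField.adjoin E {x 0 / x 1} = M :=
    ⟨_, rfl⟩
  have hzM : x 0 / x 1 ∈ M := hM ▸ IntermediateField.mem_adjoin_simple_self E _
  have hfr : finrank E M ≤ r := by
    rw [← hM, IntermediateField.adjoin.finrank (Algebra.IsIntegral.isIntegral _)]
    exact hr
  let x' : Fin (1 + 1) → M := ![⟨x 0 / x 1, hzM⟩, 1]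
  have hx' : x' ≠ 0 := by
    intro h
    have h1 : (1 : M) = 0 := congrFun h 1
    exact one_ne_zero h1
  let ι : M →ₐ[K] L := M.val.restrictScalars K
  have hιval : ∀ y : M, ι y = (y : L) := fun y => rfl
  have hxx : x = x 1 • fun i => ι (x' i) := by
    funext i
    fin_cases i
    · show x 0 = x 1 * (x 0 / x 1)
      rw [mul_div_cancel₀ _ hx1]
    · show x 1 = x 1 * ((1 : M) : L)
      rw [IntermediateField.coe_one, mul_one]
  have hw' : Wnd F x' := by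
    rintro ⟨m, n, hmn, d, hd, hd'⟩
    apply hw
    have h1 : ∀ n, (act F)^[n] x = (x 1) ^ (q ^ n) • fun i => ι ((act F)^[n] x' i) := by
      intro n
      conv_lhs => rw [hxx]
      rw [act_iter_smul hF, iter_map]
    have hd0 : ι d ≠ 0 := (map_ne_zero _).mpr hd
    refine ⟨m, n, hmn, (x 1) ^ (q ^ n) * ι d * ((x 1) ^ (q ^ m))⁻¹, ?_, ?_⟩
    · exact mul_ne_zero (mul_ne_zero (pow_ne_zero _ hx1) hd0) (inv_ne_zero (pow_ne_zero _ hx1))
    · rw [h1, h1, hd', smul_smul, inv_mul_cancel_right₀ (pow_ne_zero _ hx1)]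
      funext i
      simp only [Pi.smul_apply, smul_eq_mul, map_mul]
      ring
  obtain ⟨h, hlim, -, hb⟩ := hmain K E M hE (by rw [finrank_self]) hfr x' hx' hw'
  have hh : h = canH F q x' := tendsto_nhds_unique hlim (hB.canH_tendsto hq hx')
  have hh' : canH F q x = canH F q x' := by
    conv_lhs => rw [hxx]
    rw [canH_smul hF hx1, canH_hom]
  rw [hh', ← hh]
  refine hb P hPm hP0 hCP ?_
  intro 𝔓 h𝔓 hu𝔓
  obtain ⟨u, hu, rfl⟩ := AD.Tam.exists_place hP0 𝔓 h𝔓 hu𝔓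
  rw [Nat.coprime_iff_gcd_eq_one]
  by_contra hne
  obtain ⟨p, hp, hpd⟩ := Nat.exists_prime_and_dvd hne
  exact htame p hp (AD.Tam.mem_of_dvd hP0 hp (hpd.trans (Nat.gcd_dvd_right _ _))) u hu
    (hpd.trans (Nat.gcd_dvd_left _ _))

end

end Pool.Agent.U218.PG
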