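import Mathlib
import Pool.Agent.U218.PC.Fld

/-!
Finite groups in which the `m`-th powers are central: the primes which do not divide `m`.
-/

set_option autoImplicit false

namespace Pool.Agent.U218.PG

open Module Pool.Agent.U218.PC

/-- the elements of `p`-power order are central -/
lemma central {G : Type*} [Group G] [Finite G] {p m : ℕ} (hp : p.Prime) (hpm : ¬ p ∣ m)
    (hconj : ∀ σ : G, (Set.range fun g : G => g * σ ^ m * g⁻¹).ncard ≤ 1) {s : G} {k : ℕ}
    (hs : s ^ p ^ k = 1) (g : G) : g * s = s * g := by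
  have hcop : Nat.Coprime m (orderOf s) := by
    have h1 : orderOf s ∣ p ^ k := orderOf_dvd_of_pow_eq_one hs
    exact Nat.Coprime.coprime_dvd_right h1
      (Nat.Coprime.pow_right k ((Nat.Prime.coprime_iff_not_dvd hp).mpr hpm).symm)
  obtain ⟨j, hj⟩ := exists_pow_eq_self_of_coprime hcop
  have h1 : (s ^ j) ^ m = s := by
    rw [← pow_mul, mul_comm, pow_mul]
    exact hj
  have h2 := hconj (s ^ j)
  rw [h1, Set.ncard_le_one (Set.toFinite _)] at h2
  have h3 := h2 (g * s * g⁻¹) ⟨g, rfl⟩ (1 * s * 1⁻¹) ⟨1, rfl⟩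
  rw [one_mul, inv_one, mul_one, mul_inv_eq_iff_eq_mul] at h3
  exact h3

/-- a normal complement of the Sylow subgroup, with commutative quotient -/
theorem exists_compl {G : Type*} [Group G] [Finite G] {p m : ℕ} (hp : p.Prime) (hpm : ¬ p ∣ m)
    (hconj : ∀ σ : G, (Set.range fun g : G => g * σ ^ m * g⁻¹).ncard ≤ 1) :
    ∃ N : Subgroup G, N.Normal ∧ (∀ a b : G, a * b * a⁻¹ * b⁻¹ ∈ N) ∧
      ∀ s ∈ N, ∀ k : ℕ, s ^ p ^ k = 1 → s = 1 := by
  have hpf : Fact p.Prime := ⟨hp⟩
  let S : Sylow p G := default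
  have hc : ∀ s ∈ S, ∀ g : G, g * s = s * g := by
    intro s hs g
    obtain ⟨k, hk⟩ := S.isPGroup' ⟨s, hs⟩
    have hk' : s ^ p ^ k = 1 := by
      have := congrArg Subtype.val hk
      simpa using this
    exact central hp hpm hconj hk' g
  have hS : Subgroup.normalizer (S : Set G) ≤ Subgroup.centralizer (S : Set G) := by
    intro g _
    rw [Subgroup.mem_centralizer_iff]
    intro s hs
    exact (hc s hs g).symm
  obtain ⟨θ, hθ⟩ : ∃ θ : G →* S, θ = MonoidHom.transferSylow S hS := ⟨_, rfl⟩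
  refine ⟨θ.ker, inferInstance, fun a b => ?_, fun s hs k hk => ?_⟩
  · rw [MonoidHom.mem_ker]
    have h1 : θ a * θ b = θ b * θ a := by
      apply Subtype.ext
      exact hc _ (θ b).2 _
    rw [map_mul, map_mul, map_mul, map_inv, map_inv, h1, mul_inv_cancel_right, mul_inv_cancel]
  · have h1 : ¬ p ∣ Nat.card θ.ker := by
      rw [hθ]
      exact MonoidHom.not_dvd_card_ker_transferSylow S hS
    by_contra hne
    apply h1
    have h2 : orderOf s ∣ p ^ k := orderOf_dvd_of_pow_eq_one hk
    obtain ⟨l, -, hl⟩ := (Nat.dvd_prime_pow hp).mp h2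
    have hl0 : l ≠ 0 := by
      rintro rfl
      rw [pow_zero, orderOf_eq_one_iff] at hl
      exact hne hl
    have h3 : orderOf s ∣ Nat.card θ.ker := by
      have h4 := orderOf_dvd_natCard (⟨s, hs⟩ : θ.ker)
      rwa [Subgroup.orderOf_mk] at h4
    rw [hl] at h3
    exact (dvd_pow_self p hl0).trans h3

section

variable {K L : Type} [Field K] [Field L] [Algebra K L] [FiniteDimensional K L] [IsGalois K L]

/-- the abelian subextension of degree prime to `p` below -/
theorem exists_abelian (E : IntermediateField K L) {p m : ℕ} (hp : p.Prime) (hpm : ¬ p ∣ m)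
    (hPC : PCE m 1 K E) : ∃ A : IntermediateField K L, A ≤ E ∧ IsAbelianGalois K A ∧
      ∀ s ∈ A.fixingSubgroup, ∀ k : ℕ, s ^ p ^ k ∈ E.fixingSubgroup → s ∈ E.fixingSubgroup := by
  have hgal : IsGalois K E := hPC.gal
  let π : Gal(L/K) →* Gal(E/K) := AlgEquiv.restrictNormalHom E
  have hπ : Function.Surjective π := AlgEquiv.restrictNormalHom_surjective L
  have hker : π.ker = E.fixingSubgroup := IntermediateField.restrictNormalHom_ker E
  obtain ⟨N, hN, hcomm, hp'⟩ := exists_compl (G := Gal(E/K)) hp hpm hPC.conj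
  obtain ⟨M, hM⟩ : ∃ M : Subgroup Gal(L/K), M = N.comap π := ⟨_, rfl⟩
  have hMn : M.Normal := by
    rw [hM]
    infer_instance
  obtain ⟨A, hA⟩ : ∃ A : IntermediateField K L, A = IntermediateField.fixedField M := ⟨_, rfl⟩
  have hfix : A.fixingSubgroup = M := by
    rw [hA]
    exact IntermediateField.fixingSubgroup_fixedField M
  have hAg : IsGalois K A := by
    rw [hA]
    infer_instance
  refine ⟨A, ?_, ?_, ?_⟩
  · rw [← IsGalois.fixedField_fixingSubgroup E, hA]
    apply IntermediateField.fixedField_antitone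
    rw [← hker, hM]
    intro σ hσ
    rw [Subgroup.mem_comap]
    rw [MonoidHom.mem_ker] at hσ
    rw [hσ]
    exact N.one_mem
  · refine { toIsGalois := hAg, is_comm := ⟨fun a b => ?_⟩ }
    obtain ⟨a, rfl⟩ := AlgEquiv.restrictNormalHom_surjective (F := K) (K₁ := A) L a
    obtain ⟨b, rfl⟩ := AlgEquiv.restrictNormalHom_surjective (F := K) (K₁ := A) L b
    have h1 : a * b * a⁻¹ * b⁻¹ ∈ A.fixingSubgroup := by
      rw [hfix, hM, Subgroup.mem_comap, map_mul, map_mul, map_mul, map_inv, map_inv]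
      exact hcomm _ _
    rw [← IntermediateField.restrictNormalHom_ker A, MonoidHom.mem_ker, map_mul, map_mul, map_mul,
      map_inv, map_inv, mul_inv_eq_one, mul_inv_eq_iff_eq_mul] at h1
    exact h1
  · intro s hs k hk
    rw [hfix, hM, Subgroup.mem_comap] at hs
    rw [← hker, MonoidHom.mem_ker, map_pow] at hk
    rw [← hker, MonoidHom.mem_ker]
    exact hp' _ hs k hk

end

end Pool.Agent.U218.PG
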