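import Mathlib
import Pool.Agent.N715.AD.Lif
import Pool.Agent.U218.PG.Grp

/-!
Lifting a very small move of a Galois extension `A` to a Galois extension which has no elements of
order `p` above `A`.
-/

set_option autoImplicit false
set_option linter.unusedSectionVars false

namespace Pool.Agent.U218.PG

open NumberField Module Polynomial
open Pool.Agent.H420R3 (mi nv TP ew mem_TP v_smul nv_pos v_fixed_le v_lt_one_iff v_sub_le)
open Pool.Agent.R829.BG (mul_close v_sum_lt)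
open Pool.Agent.R829.BH (inertia_lt inertia_v)
open Pool.Agent.N715.AC (CF)
open Pool.Agent.N715.AC.Dis (pow_fact_conj w_nat mem_fix)
open Pool.Agent.N715.AD.Lif
open scoped Pointwise

noncomputable section

/-- the lift -/
theorem lift2 (K : Type) [Field K] [NumberField K] (L : Type) [Field L] [NumberField L]
    [Algebra K L] [IsGalois K L] (P : Ideal (𝓞 K)) [P.IsMaximal] (hP0 : P ≠ ⊥)
    (p : ℕ) (hp : p.Prime) (hpP : (p : 𝓞 K) ∈ P)
    (E : IntermediateField K L) [IsGalois K E] (x : L) (hEM' : E ≤ CF K x)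
    (hfixp : ∀ s ∈ E.fixingSubgroup, s ^ p ∈ (CF K x).fixingSubgroup →
      s ∈ (CF K x).fixingSubgroup)
    (c : ℝ) (hc : 0 < c) (ρ : Gal(L/K))
    (hρ : ∀ v ∈ TP L P, ∀ z ∈ E, v (ρ z - z) ≤ Real.exp (-(c * ew K v)) * v z) :
    ∀ v ∈ TP L P, ∃ φ : Gal(L/K), (∀ z ∈ E, φ z = ρ z) ∧ (∃ a : ℕ, φ ^ p ^ a = 1) ∧
      ∀ z ∈ CF K x, v (φ z - z) ≤ Real.exp (-(c * ew K v)) * v z := by
  intro v hv
  classical
  have hlo := H420R3.liesOver_of_mem hP0 hv
  have hGE : IsGalois K E := inferInstance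
  have hvp : v (p : L) < 1 := by
    have h4 : (algebraMap (𝓞 K) (𝓞 L) (p : 𝓞 K)) ∈ mi v := by
      have h5 : (p : 𝓞 K) ∈ (mi v).under (𝓞 K) := by
        rw [← hlo.over]
        exact hpP
      exact h5
    rw [map_natCast] at h4
    have h5 := (v_lt_one_iff v _).mpr h4
    simpa using h5
  obtain ⟨δ, hδ⟩ : ∃ δ, δ = Real.exp (-(c * ew K v)) := ⟨_, rfl⟩
  have hδ1 : δ < 1 := by
    rw [hδ, Real.exp_lt_one_iff]
    have := H420R3.ew_pos (K := K) v
    have := mul_pos hc this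
    linarith
  have hρv := hρ v hv
  rw [← hδ] at hρv ⊢
  -- the field generated by the conjugates
  obtain ⟨M, hM⟩ : ∃ M, M = CF K x := ⟨_, rfl⟩
  have hEM : E ≤ M := by
    rw [hM]
    exact hEM'
  have hstabE : ∀ (σ : Gal(L/K)) (z : L), z ∈ E → σ z ∈ E := by
    intro σ z hz
    have h2 : (σ.restrictNormal E ⟨z, hz⟩ : L) = σ z :=
      AlgEquiv.restrictNormal_commutes σ E ⟨z, hz⟩
    rw [← h2]
    exact (σ.restrictNormal E ⟨z, hz⟩).2
  have hNM : Normal K M := by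
    rw [IntermediateField.normal_iff_forall_map_le']
    intro σ
    rw [hM]
    unfold CF
    rw [IntermediateField.adjoin_map]
    apply IntermediateField.adjoin.mono
    rintro _ ⟨_, ⟨τ, rfl⟩, rfl⟩
    exact ⟨σ * τ, rfl⟩
  have hcomm : ∀ (σ : Gal(L/K)) (y : M), ((AlgEquiv.restrictNormalHom M σ y : M) : L) = σ y :=
    fun σ y => AlgEquiv.restrictNormal_commutes σ M y
  -- the lift in the inertia group
  obtain ⟨φ₀, hφ₀I, hφ₀⟩ := exists_inertia hP0 hv E ρ (fun z hz hz1 => by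
    rcases eq_or_ne z 0 with rfl | h0
    · rw [map_zero, sub_zero, map_zero]
      exact one_pos
    · refine lt_of_le_of_lt (hρv z hz) ?_
      have : 0 < v z := FinitePlace.pos_iff.mpr h0
      nlinarith)
  obtain ⟨k, hk⟩ := order_pow hp hvp E ρ hδ1 hρv
  obtain ⟨a, m, hm, ham⟩ := Nat.exists_eq_pow_mul_and_not_dvd (orderOf_pos φ₀).ne' p
    hp.one_lt.ne'
  obtain ⟨n, ⟨j, hj⟩, hn⟩ := exists_exp (k := k) (a := a) hp hm
  obtain ⟨φ, hφ⟩ : ∃ φ, φ = φ₀ ^ n := ⟨_, rfl⟩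
  have hφI : φ ∈ (mi v).inertia Gal(L/K) := by
    rw [hφ]
    exact Subgroup.pow_mem _ hφ₀I n
  have hφo : φ ^ p ^ a = 1 := by
    rw [hφ, ← pow_mul]
    rw [← ham] at hn
    exact orderOf_dvd_iff_pow_eq_one.mp hn
  have hφρ : ∀ z ∈ E, φ z = ρ z := by
    intro z hz
    have h1 : ∀ i : ℕ, ∀ z ∈ E, (φ₀ ^ i) z = (ρ ^ i) z := by
      intro i
      induction i with
      | zero => exact fun z _ => rfl
      | succ i ih =>
        intro z hz
        rw [pow_succ, pow_succ, AlgEquiv.mul_apply, AlgEquiv.mul_apply, hφ₀ z hz,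
          ih _ (hstabE ρ z hz)]
    have h2 : ∀ i : ℕ, ∀ z ∈ E, ((ρ ^ p ^ k) ^ i) z = z := by
      intro i
      induction i with
      | zero => exact fun z _ => rfl
      | succ i ih =>
        intro z hz
        rw [pow_succ, AlgEquiv.mul_apply, hk z hz, ih z hz]
    rw [hφ, h1 n z hz, hj, pow_add, pow_one, pow_mul, AlgEquiv.mul_apply, h2 j z hz]
  have hwild := wild_of_order hp hvp hφI hφo
  refine ⟨φ, hφρ, ⟨a, hφo⟩, ?_⟩
  rw [← hM]
  by_cases htriv : ∀ z ∈ M, φ z = z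
  · intro z hz
    rw [htriv z hz, sub_self, map_zero, hδ]
    have := v_nn (v := v) z
    positivity
  push Not at htriv
  obtain ⟨z₀, hz₀, hz₀'⟩ := htriv
  have hz₀0 : z₀ ≠ 0 := by
    rintro rfl
    exact hz₀' (map_zero φ)
  -- the maximal move
  obtain ⟨_, ⟨z₁, ⟨hz₁, hz₁0⟩, rfl⟩, hmax0, hmax⟩ := exists_max (v := v)
    ((fun z => φ z / z - 1) '' {z | z ∈ M ∧ z ≠ 0})
    ⟨_, ⟨z₀, ⟨hz₀, hz₀0⟩, rfl⟩, by
      intro h
      apply hz₀'
      have h1 : φ z₀ / z₀ = 1 := sub_eq_zero.1 h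
      rwa [div_eq_one_iff_eq hz₀0] at h1⟩
    (by
      rintro _ ⟨z, ⟨_, hz0⟩, rfl⟩
      exact (hwild z hz0).le)
  obtain ⟨ε, hε⟩ : ∃ ε, ε = D v φ z₁ := ⟨_, rfl⟩
  have hε0 : 0 < ε := by
    rw [hε]
    exact FinitePlace.pos_iff.mpr hmax0
  have hle : ∀ z ∈ M, z ≠ 0 → D v φ z ≤ ε := by
    intro z hz hz0
    rw [hε]
    exact hmax _ ⟨z, ⟨hz, hz0⟩, rfl⟩
  have hunit : ∀ u ∈ M, v u = 1 → D v φ u < ε := fun u hu hvu =>
    D_unit hwild hp hvp M hε0 hle hu hvu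
  -- it is enough to bound the maximal move
  suffices hεδ : ε ≤ δ by
    intro z hz
    rcases eq_or_ne z 0 with rfl | h0
    · rw [map_zero, sub_zero, map_zero, mul_zero]
    · exact (D_lt (v := v) (φ := φ) h0).mp ((hle z hz h0).trans hεδ)
  -- the uniformizer of `M`
  have hpM : (p : L) ∈ M := natCast_mem M p
  have hp0 : (p : L) ≠ 0 := by exact_mod_cast hp.ne_zero
  obtain ⟨π, ⟨hπM, hπ1⟩, hπ0, hπmax⟩ := exists_max (v := v) {z | z ∈ M ∧ v z < 1}
    ⟨(p : L), ⟨hpM, hvp⟩, hp0⟩ (fun z hz => hz.2.le)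
  have hfac : ∀ z ∈ M, z ≠ 0 → ∃ n : ℤ, z * π ^ n ∈ M ∧ v (z * π ^ n) = 1 := by
    intro z hz hz0
    obtain ⟨n, hn1, hn2⟩ := exists_zpow hπ0 hπ1 hz0
    have hmem : z * π ^ n ∈ M := M.mul_mem hz (zpow_mem hπM n)
    refine ⟨n, hmem, ?_⟩
    by_contra hne
    have h1 := hπmax _ ⟨hmem, lt_of_le_of_ne hn2 hne⟩
    linarith
  have hsplit : ∀ z ∈ M, z ≠ 0 → ∀ y ∈ M, y ≠ 0 → ∀ n : ℤ, v (z * y ^ n) = 1 → ε ≤ D v φ z →
      ε ≤ D v φ y := by
    intro z hz hz0 y hy hy0 n hn hDz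
    by_contra hlt
    push Not at hlt
    have hyn : y ^ n ≠ 0 := zpow_ne_zero n hy0
    have h1 : z = (z * y ^ n) * (y ^ n)⁻¹ := by field_simp
    have h2 : D v φ z ≤ max (D v φ (z * y ^ n)) (D v φ (y ^ n)⁻¹) := by
      have := D_mul hwild (mul_ne_zero hz0 hyn) (inv_ne_zero hyn)
      rwa [← h1] at this
    have h3 := hunit _ (M.mul_mem hz (zpow_mem hy n)) hn
    rw [D_inv hwild hyn] at h2
    have h4 := D_zpow_le hwild hy0 n
    have h5 : max (D v φ (z * y ^ n)) (D v φ (y ^ n)) < ε := max_lt h3 (h4.trans_lt hlt)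
    linarith
  have hDπ : D v φ π = ε := by
    apply le_antisymm (hle π hπM hπ0)
    obtain ⟨n, _, hn⟩ := hfac z₁ hz₁ hz₁0
    exact hsplit z₁ hz₁ hz₁0 π hπM hπ0 n hn hε.le
  -- the tame group
  obtain ⟨S, hS⟩ : ∃ S : Subgroup Gal(L/K), S = (mi v).inertia Gal(L/K) ⊓ E.fixingSubgroup :=
    ⟨_, rfl⟩
  obtain ⟨T, hT⟩ : ∃ T : Subgroup Gal(M/K), T = S.map (AlgEquiv.restrictNormalHom M) := ⟨_, rfl⟩
  have hTmem : ∀ g : Gal(M/K), g ∈ T → ∃ s ∈ S, AlgEquiv.restrictNormalHom M s = g := by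
    intro g hg
    rw [hT] at hg
    obtain ⟨s, hs, hst⟩ := hg
    exact ⟨s, hs, hst⟩
  have hfp : Fact p.Prime := ⟨hp⟩
  have hTp : ¬ p ∣ Nat.card T := by
    intro hdvd
    obtain ⟨t, ht⟩ := exists_prime_orderOf_dvd_card' p hdvd
    obtain ⟨s, hsS, hst⟩ := hTmem t t.2
    rw [hS] at hsS
    have h0 : (t : Gal(M/K)) ^ p = 1 := by
      have h5 : orderOf (t : Gal(M/K)) = p := by
        rw [Subgroup.orderOf_coe, ht]
      rw [← h5]
      exact pow_orderOf_eq_one _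
    have h1 : s ^ p ∈ (CF K x).fixingSubgroup := by
      rw [← hM, IntermediateField.mem_fixingSubgroup_iff]
      intro y hy
      have h5 := hcomm (s ^ p) ⟨y, hy⟩
      rw [map_pow, hst, h0] at h5
      exact h5.symm
    have h2 := hfixp s hsS.2 h1
    rw [← hM, IntermediateField.mem_fixingSubgroup_iff] at h2
    have h3 : (t : Gal(M/K)) = 1 := by
      rw [← hst]
      ext y
      rw [hcomm]
      exact h2 y y.2
    have h4 : t = 1 := Subtype.ext h3
    rw [h4, orderOf_one] at ht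
    exact hp.one_lt.ne ht
  have hvT : v ((Nat.card T : ℕ) : L) = 1 := w_nat hp hvp _ hTp
  -- the norm
  have hTfin : Fintype T := Fintype.ofFinite T
  obtain ⟨π', hπ'⟩ : ∃ π' : M, (π' : L) = π := ⟨⟨π, hπM⟩, rfl⟩
  obtain ⟨w, hw⟩ : ∃ w : M, w = ∏ t : T, (t : Gal(M/K)) π' := ⟨_, rfl⟩
  have hvt : ∀ t : T, v (((t : Gal(M/K)) π' : M) : L) = v π := by
    intro t
    obtain ⟨s, hsS, hst⟩ := hTmem t t.2
    rw [hS] at hsS
    rw [← hst, hcomm, hπ', inertia_v hsS.1]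
  have hvw : v (w : L) = v π ^ Nat.card T := by
    rw [hw]
    have h1 : ((∏ t : T, (t : Gal(M/K)) π' : M) : L) = ∏ t : T, (((t : Gal(M/K)) π' : M) : L) :=
      map_prod (algebraMap M L) _ _
    rw [h1, map_prod, Finset.prod_congr rfl fun t _ => hvt t, Finset.prod_const,
      Finset.card_univ, Nat.card_eq_fintype_card]
  have hw0 : (w : L) ≠ 0 := by
    intro h
    rw [h, map_zero] at hvw
    exact pow_ne_zero _ (v_ne hπ0) hvw.symm
  have hwS : ∀ s ∈ S, s (w : L) = w := by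
    intro s hs
    have hsT : AlgEquiv.restrictNormalHom M s ∈ T := by
      rw [hT]
      exact ⟨s, hs, rfl⟩
    rw [← hcomm]
    congr 1
    rw [hw, map_prod]
    refine Fintype.prod_equiv (Equiv.mulLeft (⟨_, hsT⟩ : T)) _ _ fun t => ?_
    rfl
  have hDw : ε ≤ D v φ w := by
    by_contra hlt
    push Not at hlt
    have hπT : π ^ Nat.card T ≠ 0 := pow_ne_zero _ hπ0
    obtain ⟨u, hu⟩ : ∃ u, u = π ^ Nat.card T * (w : L)⁻¹ := ⟨_, rfl⟩
    have huM : u ∈ M := by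
      rw [hu]
      exact M.mul_mem (pow_mem hπM _) (M.inv_mem w.2)
    have hvu : v u = 1 := by
      rw [hu, map_mul, map_pow, map_inv₀, hvw]
      exact mul_inv_cancel₀ (pow_ne_zero _ (v_ne hπ0))
    have hu0 : u ≠ 0 := by
      rw [hu]
      exact mul_ne_zero hπT (inv_ne_zero hw0)
    have h1 : π ^ Nat.card T = u * w := by
      rw [hu]
      field_simp
    have h2 := D_mul hwild hu0 hw0
    rw [← h1, D_pow hwild hπ0 hvT, hDπ] at h2
    have h3 := max_lt (hunit u huM hvu) hlt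
    linarith
  -- comparison with `E`
  obtain ⟨e, heE, he0, he1, he2⟩ := exists_unif hP0 hv E
  rw [← hS] at he2
  obtain ⟨n', hn1, hn2⟩ := exists_zpow he0 he1 hw0
  have hn3 : v ((w : L) * e ^ n') = 1 := by
    by_contra hne
    have h1 := v_fixed_le v S (by rw [hS]; exact inf_le_left) (y := (w : L) * e ^ n')
      (fun s hs => by
        have h2 : s e = e := by
          rw [hS] at hs
          exact (IntermediateField.mem_fixingSubgroup_iff _ _).mp hs.2 e heE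
        rw [map_mul, map_zpow₀, h2, hwS s hs]) (lt_of_le_of_ne hn2 hne)
    linarith
  have hDe := hsplit w w.2 hw0 e (hEM heE) he0 n' hn3 hDw
  refine hDe.trans ?_
  rw [D_lt he0, hφρ e heE]
  exact hρv e heE

end

end Pool.Agent.U218.PG
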