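import Mathlib
import Pool.Agent.N715.AD.Pig

/-!
One conjugate for many places.
-/

set_option autoImplicit false
set_option linter.unusedSectionVars false

namespace Pool.Agent.U218.PG

open NumberField Module Polynomial
open Pool.Agent.H627.LP (exists_place_smul)
open Pool.Agent.H420R3 (mi nv TP ew v_eq v_le_iff)
open Pool.Agent.N715.AC (CF)
open Pool.Agent.N715.AD (FC)
open Pool.Agent.N715.AD.PigAux
open scoped Pointwise

noncomputable section

/-- one conjugate for many places -/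
theorem pig2 (K : Type) [Field K] [NumberField K] (L : Type) [Field L] [NumberField L]
    [Algebra K L] [IsGalois K L] (P : Ideal (𝓞 K)) [P.IsMaximal] (hP0 : P ≠ ⊥)
    (E : IntermediateField K L) (x : L) (r : ℕ) (c : ℝ)
    (hEx : E ≤ IntermediateField.adjoin K {x}) (hr : (minpoly E x).natDegree ≤ r)
    (ρ : Gal(L/K)) (hρ : ∃ z ∈ E, ρ z ≠ z)
    (hφ : ∀ v ∈ TP L P, ∃ φ : Gal(L/K), (∀ z ∈ E, φ z = ρ z) ∧
      ∀ z ∈ CF K x, v (φ z - z) ≤ Real.exp (-(c * ew K v)) * v z) :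
    ∃ τ : Gal(L/K), τ x ≠ x ∧ ∀ σ : Gal(L/K), ∑ v ∈ TP L P, ew K v ≤
      r * ∑ v ∈ TP L P, (open Classical in if FC K v c (CF K x) (σ x) (σ (τ x)) then
        ew K v else 0) := by
  classical
  obtain ⟨v₀, hv₀⟩ := Pool.Agent.H420R3.TP_nonempty (M := L) (P := P) hP0
  have hne0 : Nonempty (Gal(L/K)) := ⟨1⟩
  choose! φ hφ1 hφ2 using hφ
  -- the finite set of values
  obtain ⟨X, hX⟩ : ∃ X : Finset L, X = (TP L P).image fun v => φ v x := ⟨_, rfl⟩
  have hint : IsIntegral E x := Algebra.IsIntegral.isIntegral x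
  have hmem : ∀ v ∈ TP L P, φ v x ∈ ((minpoly E x).rootSet L).toFinset.image fun y => ρ y := by
    intro v hv
    have hh : ρ⁻¹ * φ v ∈ E.fixingSubgroup := by
      rw [IntermediateField.mem_fixingSubgroup_iff]
      intro z hz
      have h1 : (ρ⁻¹ * φ v : Gal(L/K)) z = (ρ⁻¹ : Gal(L/K)) (φ v z) := rfl
      rw [h1, hφ1 v hv z hz, ← AlgEquiv.mul_apply, inv_mul_cancel]
      rfl
    refine Finset.mem_image.2 ⟨(ρ⁻¹ * φ v : Gal(L/K)) x, ?_, ?_⟩
    · rw [Set.mem_toFinset, Polynomial.mem_rootSet]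
      refine ⟨minpoly.ne_zero hint, ?_⟩
      let h' : L ≃ₐ[E] L := (IntermediateField.fixingSubgroupEquiv E) ⟨ρ⁻¹ * φ v, hh⟩
      have h2 : (ρ⁻¹ * φ v : Gal(L/K)) x = h' x := rfl
      have h3 := Polynomial.aeval_algHom_apply (h' : L →ₐ[E] L) x (minpoly E x)
      rw [minpoly.aeval, map_zero] at h3
      rw [h2]
      exact h3
    · have h1 : ρ ((ρ⁻¹ * φ v : Gal(L/K)) x) = (ρ * (ρ⁻¹ * φ v) : Gal(L/K)) x := rfl
      rw [h1, mul_inv_cancel_left]
  have hcard : X.card ≤ r := by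
    have h1 : X ⊆ ((minpoly E x).rootSet L).toFinset.image fun y => ρ y := by
      rw [hX]
      intro y hy
      obtain ⟨v, hv, rfl⟩ := Finset.mem_image.1 hy
      exact hmem v hv
    refine (Finset.card_le_card h1).trans (Finset.card_image_le.trans (le_trans ?_ hr))
    rw [← Set.ncard_eq_toFinset_card']
    exact Polynomial.ncard_rootSet_le _ _
  have hex : ∀ v ∈ TP L P, ∃ y ∈ X, FC K v c (CF K x) x y := by
    intro v hv
    refine ⟨φ v x, ?_, φ v, hφ2 v hv, rfl⟩
    rw [hX]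
    exact Finset.mem_image_of_mem _ hv
  obtain ⟨W, hW⟩ : ∃ W : L → ℝ, W = fun y => ∑ v ∈ TP L P,
    if FC K v c (CF K x) x y then ew K v else 0 := ⟨_, rfl⟩
  have hW0 : ∀ y, 0 ≤ W y := by
    intro y
    rw [hW]
    refine Finset.sum_nonneg fun v _ => ?_
    split_ifs
    · exact (Pool.Agent.H420R3.ew_pos _).le
    · exact le_rfl
  have htot : ∑ v ∈ TP L P, ew K v ≤ ∑ y ∈ X, W y := by
    rw [hW, Finset.sum_comm]
    refine Finset.sum_le_sum fun v hv => ?_
    obtain ⟨y, hy, hfp⟩ := hex v hv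
    calc ew K v = if FC K v c (CF K x) x y then ew K v else 0 := by rw [if_pos hfp]
      _ ≤ _ := Finset.single_le_sum (f := fun y => if FC K v c (CF K x) x y then ew K v else 0)
        (fun z _ => by
          beta_reduce
          split_ifs
          · exact (Pool.Agent.H420R3.ew_pos _).le
          · exact le_rfl) hy
  have hne : X.Nonempty := ⟨φ v₀ x, by
    rw [hX]
    exact Finset.mem_image_of_mem _ hv₀⟩
  obtain ⟨y, hy, hmax⟩ := Finset.exists_max_image X W hne
  have h1 : ∑ v ∈ TP L P, ew K v ≤ r * W y := by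
    refine htot.trans ((Finset.sum_le_card_nsmul X W (W y) hmax).trans ?_)
    rw [nsmul_eq_mul]
    exact mul_le_mul_of_nonneg_right (by exact_mod_cast hcard) (hW0 y)
  rw [hX] at hy
  obtain ⟨v₁, hv₁, hy1⟩ := Finset.mem_image.1 hy
  have hy2 : φ v₁ x = y := hy1
  refine ⟨φ v₁, fun hcon => ?_, fun σ => h1.trans ?_⟩
  · obtain ⟨z, hz, hz1⟩ := hρ
    apply hz1
    rw [← hφ1 v₁ hv₁ z hz]
    exact fix_adjoin (hEx hz) hcon
  · refine mul_le_mul_of_nonneg_left ?_ (Nat.cast_nonneg r)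
    rw [hW, hy2]
    have h2 := Pool.Agent.N715.AC.FrbAux.sum_smul (K := K) (L := L) hP0 σ
      (fun v => v ∈ TP L P ∧ FC K v c (CF K x) x y)
      (fun v => FC K v c (CF K x) (σ x) (σ y)) (fun v w hvw h => by
        obtain ⟨w', hw', hw''⟩ := exists_place_smul hP0 h.1 σ
        have h3 : w' = w := Pool.Agent.N715.AC.FrbAux.mi_inj (by rw [hw'', hvw])
        subst h3
        exact fc_conj hP0 h.1 hw' hvw h.2)
    have h4 : ∑ v ∈ TP L P, (if FC K v c (CF K x) x y then ew K v else 0) =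
        ∑ v ∈ TP L P, (if v ∈ TP L P ∧ FC K v c (CF K x) x y then ew K v else 0) := by
      refine Finset.sum_congr rfl fun v hv => ?_
      by_cases h : FC K v c (CF K x) x y
      · rw [if_pos h, if_pos ⟨hv, h⟩]
      · rw [if_neg h, if_neg fun h' => h h'.2]
    show ∑ v ∈ TP L P, (if FC K v c (CF K x) x y then ew K v else 0) ≤ _
    rw [h4]
    convert h2 using 3

end

end Pool.Agent.U218.PG
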