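import Mathlib
import Pool.Agent.N715.AC.Pts
import Pool.Agent.N715.AD.Tam
import Pool.Agent.N715.AD.Fin2
import Pool.Agent.U218.PC.Key
import Pool.Agent.U218.PG.Lift2
import Pool.Agent.U218.PG.Pig2

/-!
The wild case for Galois extensions whose group has exponent dividing `m` modulo the centre.
-/

set_option autoImplicit false
set_option linter.unusedSectionVars false

namespace Pool.Agent.U218.PG

open NumberField Module
open Pool.Agent.H420R3 (mi nv TP ew mem_TP)
open Pool.Agent.N715.AC (CF ram_dvd)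
open Pool.Agent.N715.AC.Dis (pow_fact_conj mem_fix)
open Pool.Agent.N715.AD (FC abLemC)
open Pool.Agent.U218.PC

noncomputable section

/-- ramification below an extension of degree prime to `p` -/
lemma ram_mid {k A E : Type} [Field k] [NumberField k] [Field A] [NumberField A] [Field E]
    [NumberField E] [Algebra k A] [Algebra A E] [Algebra k E] [IsScalarTower k A E] [IsGalois A E]
    {P : Ideal (𝓞 k)} [P.IsMaximal] (hP0 : P ≠ ⊥) {p : ℕ} (hp : p.Prime)
    (hd : ¬ p ∣ finrank A E) {u : FinitePlace E} (hu : u ∈ TP E P)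
    (h : p ∣ (mi u).ramificationIdx (𝓞 k)) :
    ∃ u' ∈ TP A P, p ∣ (mi u').ramificationIdx (𝓞 k) := by
  have hlo := Pool.Agent.H420R3.liesOver_of_mem hP0 hu
  have hprime : (mi u).IsPrime := ((mem_TP hP0).mp hu).1
  obtain ⟨𝔮, h𝔮⟩ : ∃ 𝔮 : Ideal (𝓞 A), 𝔮 = (mi u).under (𝓞 A) := ⟨_, rfl⟩
  have h1 : 𝔮.under (𝓞 k) = P := by
    rw [h𝔮, Ideal.under_under]
    exact hlo.over.symm
  have h𝔮p : 𝔮.IsPrime := by
    rw [h𝔮]
    infer_instance
  have hloP : 𝔮.LiesOver P := ⟨h1.symm⟩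
  have h𝔮0 : 𝔮 ≠ ⊥ := Ideal.ne_bot_of_liesOver_of_ne_bot hP0 𝔮
  have h𝔮m : 𝔮.IsMaximal := h𝔮p.isMaximal h𝔮0
  have hlo𝔮 : (mi u).LiesOver 𝔮 := ⟨h𝔮⟩
  have hT : u ∈ TP E 𝔮 := by
    rw [mem_TP h𝔮0]
    exact ⟨hprime, hlo𝔮⟩
  have h2 : (mi u).ramificationIdx (𝓞 A) ∣ finrank A E := ram_dvd h𝔮0 hT
  have h3 : (mi u).ramificationIdx (𝓞 k) =
      𝔮.ramificationIdx (𝓞 k) * (mi u).ramificationIdx (𝓞 A) :=
    Ideal.ramificationIdx_tower 𝔮 (mi u)
  rw [h3] at h
  have h4 : p ∣ 𝔮.ramificationIdx (𝓞 k) :=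
    (hp.dvd_mul.mp h).resolve_right fun h5 => hd (h5.trans h2)
  obtain ⟨u', hu', hu'm⟩ := Pool.Agent.N715.AD.Tam.exists_place hP0 𝔮 h𝔮p h1
  exact ⟨u', hu', by rwa [hu'm]⟩

section

variable {K : Type} [Field K] [NumberField K] {L : Type} [Field L] [NumberField L] [Algebra K L]
  [IsGalois K L]

/-- the wild ramification comes from `A` -/
lemma wild_down {P : Ideal (𝓞 K)} [P.IsMaximal] (hP0 : P ≠ ⊥) {p : ℕ} (hp : p.Prime)
    (A E : IntermediateField K L) (hAE : A ≤ E) [IsGalois K E]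
    (hpow : ∀ s ∈ A.fixingSubgroup, ∀ k : ℕ, s ^ p ^ k ∈ E.fixingSubgroup →
      s ∈ E.fixingSubgroup)
    {u : FinitePlace E} (hu : u ∈ TP E P) (h : p ∣ (mi u).ramificationIdx (𝓞 K)) :
    ∃ u' ∈ TP A P, p ∣ (mi u').ramificationIdx (𝓞 K) := by
  have hfd : FiniteDimensional K L := Pool.Agent.R829.DL.fd_inter K L
  let _ : Algebra A E := (IntermediateField.inclusion hAE).toRingHom.toAlgebra
  have htow : IsScalarTower K A E := IsScalarTower.of_algebraMap_eq fun z => rfl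
  have hgal : IsGalois A E := IsGalois.tower_top_of_isGalois K A E
  have hfdE : FiniteDimensional A E := FiniteDimensional.right K A E
  refine ram_mid hP0 hp ?_ hu h
  intro hd
  rw [← IsGalois.card_aut_eq_finrank] at hd
  have hfp : Fact p.Prime := ⟨hp⟩
  obtain ⟨t, ht⟩ := exists_prime_orderOf_dvd_card' p hd
  obtain ⟨s, hs⟩ := AlgEquiv.restrictNormalHom_surjective (F := K) (K₁ := E) L
    (AlgEquiv.restrictScalars K t)
  have hst : ∀ y : E, s y = t y := by
    intro y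
    have h1 : ((AlgEquiv.restrictNormalHom E s y : E) : L) = s y :=
      AlgEquiv.restrictNormal_commutes s E y
    rw [hs] at h1
    exact h1.symm
  have h1 : s ∈ A.fixingSubgroup := by
    rw [IntermediateField.mem_fixingSubgroup_iff]
    intro y hy
    have h2 := hst ⟨y, hAE hy⟩
    have h3 : t (algebraMap A E ⟨y, hy⟩) = algebraMap A E ⟨y, hy⟩ := t.commutes _
    have h4 : (algebraMap A E ⟨y, hy⟩ : E) = ⟨y, hAE hy⟩ := rfl
    rw [h4] at h3
    rw [h3] at h2
    exact h2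
  have hpw : ∀ (i : ℕ) (y : E), (s ^ i) y = (t ^ i) y := by
    intro i
    induction i with
    | zero => exact fun y => rfl
    | succ i ih =>
      intro y
      rw [pow_succ, pow_succ, AlgEquiv.mul_apply, AlgEquiv.mul_apply, hst y, ih]
  have h2 : s ^ p ^ 1 ∈ E.fixingSubgroup := by
    rw [IntermediateField.mem_fixingSubgroup_iff]
    intro y hy
    have h3 := hpw (p ^ 1) ⟨y, hy⟩
    have h4 : t ^ p ^ 1 = 1 := by
      rw [pow_one, ← ht]
      exact pow_orderOf_eq_one t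
    rw [h4] at h3
    exact h3
  have h3 := hpow s h1 1 h2
  rw [IntermediateField.mem_fixingSubgroup_iff] at h3
  have h4 : t = 1 := by
    ext y
    rw [← hst y]
    exact h3 y y.2
  rw [h4, orderOf_one] at ht
  exact hp.one_lt.ne ht

/-- **the wild case** -/
theorem wild (P : Ideal (𝓞 K)) [P.IsMaximal] (hP0 : P ≠ ⊥) (p : ℕ) (hp : p.Prime) (hp3 : 3 ≤ p)
    (hpP : (p : 𝓞 K) ∈ P) (hpP2 : (p : 𝓞 K) ∉ P ^ 2) (hNP : P.absNorm = p) {m : ℕ}
    (hpm : ¬ p ∣ m) (E' : IntermediateField K L)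
    (hPC : PCE m 1 K (IntermediateField.normalClosure K E' L))
    (x : L) (s : ℕ) (hEx : E' ≤ IntermediateField.adjoin K {x})
    (hmp : (minpoly E' x).natDegree ≤ s) (hsp : s < p)
    {u : FinitePlace (IntermediateField.normalClosure K E' L)}
    (hu : u ∈ TP (IntermediateField.normalClosure K E' L) P)
    (hdvd : p ∣ (mi u).ramificationIdx (𝓞 K)) (c₀ : ℝ) (hc₀ : c₀ = 1 / (p : ℝ) ^ 2) :
    ∃ τ : Gal(L/K), τ x ≠ x ∧ ∀ σ : Gal(L/K), ∑ v ∈ TP L P, ew K v ≤
      s * ∑ v ∈ TP L P, (open Classical in if FC K v c₀ (CF K x) (σ x) (σ (τ x)) then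
        ew K v else 0) := by
  classical
  have hfd : FiniteDimensional K L := Pool.Agent.R829.DL.fd_inter K L
  have hp0 : (0 : ℝ) < p := by exact_mod_cast hp.pos
  have hc₀0 : 0 < c₀ := by
    rw [hc₀]
    positivity
  obtain ⟨E'', hE''⟩ : ∃ E'' : IntermediateField K L,
    IntermediateField.normalClosure K E' L = E'' := ⟨_, rfl⟩
  obtain ⟨A, hAE, hAab, hA⟩ := exists_abelian (IntermediateField.normalClosure K E' L) hp hpm hPC
  have hgal'' : IsGalois K (IntermediateField.normalClosure K E' L) := hPC.gal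
  obtain ⟨u', hu', hdvd'⟩ := wild_down hP0 hp A _ hAE hA hu hdvd
  obtain ⟨ρ, hρ1, hρ2⟩ := abLemC K L P hP0 p hp hp3 hpP hpP2 hNP A ⟨u', hu', hdvd'⟩
  rw [hE''] at hPC hAE hA hgal''
  have hexp : ∀ v : FinitePlace L, Real.exp (-(ew K v / (p : ℝ) ^ 2)) =
      Real.exp (-(c₀ * ew K v)) := by
    intro v
    rw [hc₀]
    congr 2
    ring
  have hle' : E' ≤ E'' := by
    rw [← hE'']
    exact IntermediateField.le_normalClosure E'
  -- the field generated by the conjugates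
  have hnCF : Normal K (CF K x) := by
    rw [IntermediateField.normal_iff_forall_map_le']
    intro σ
    unfold CF
    rw [IntermediateField.adjoin_map]
    apply IntermediateField.adjoin.mono
    rintro _ ⟨_, ⟨τ, rfl⟩, rfl⟩
    exact ⟨σ * τ, rfl⟩
  have hE''CF : E'' ≤ CF K x := by
    rw [← hE'', ← IntermediateField.normalClosure_of_normal (CF K x)]
    apply IntermediateField.normalClosure_mono
    refine hEx.trans ?_
    unfold CF
    apply IntermediateField.adjoin.mono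
    rintro _ rfl
    exact ⟨1, rfl⟩
  have hmp'' : (minpoly E'' x).natDegree ≤ s := (deg_anti hle' _).trans hmp
  have hfixp : ∀ g ∈ A.fixingSubgroup, g ^ p ∈ (CF K x).fixingSubgroup →
      g ∈ (CF K x).fixingSubgroup := by
    intro g hg hgp
    have h1 : g ∈ E''.fixingSubgroup := by
      refine hA g hg 1 ?_
      rw [pow_one]
      exact IntermediateField.fixingSubgroup_antitone hE''CF hgp
    have hfix : ∀ e ∈ E'', g e = e := (IntermediateField.mem_fixingSubgroup_iff _ _).mp h1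
    have h2 : g ^ s.factorial ∈ (CF K x).fixingSubgroup :=
      mem_fix fun τ => pow_fact_conj E'' x hmp'' hfix τ
    have hcop : Nat.Coprime p s.factorial := by
      rw [Nat.Prime.coprime_iff_not_dvd hp, Nat.Prime.dvd_factorial hp]
      omega
    have h3 := Nat.gcd_eq_gcd_ab p s.factorial
    rw [Nat.coprime_iff_gcd_eq_one.mp hcop] at h3
    have h4 : g = (g ^ p) ^ (Nat.gcdA p s.factorial) *
        (g ^ s.factorial) ^ (Nat.gcdB p s.factorial) := by
      rw [← zpow_natCast g p, ← zpow_natCast g s.factorial, ← zpow_mul, ← zpow_mul, ← zpow_add,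
        ← h3]
      simp
    rw [h4]
    exact Subgroup.mul_mem _ (Subgroup.zpow_mem _ hgp _) (Subgroup.zpow_mem _ h2 _)
  have hlift := lift2 K L P hP0 p hp hpP A x (hAE.trans hE''CF) hfixp c₀ hc₀0 ρ
    (fun v hv y hy => by
      rw [← hexp]
      exact hρ2 v hv y hy)
  -- the lifts agree on `E''`
  have hfin'' : Finite Gal(E''/K) := inferInstance
  have hcen : ∀ φ : Gal(L/K), (∃ a : ℕ, φ ^ p ^ a = 1) → ∀ (g : Gal(L/K)), ∀ z ∈ E'',
      g (φ z) = φ (g z) := by
    rintro φ ⟨a, ha⟩ g z hz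
    have h1 : (AlgEquiv.restrictNormalHom E'' φ) ^ p ^ a = 1 := by
      rw [← map_pow, ha, map_one]
    have h2 := central hp hpm hPC.conj h1 (AlgEquiv.restrictNormalHom E'' g)
    rw [← map_mul, ← map_mul] at h2
    have h3 := congrArg (fun θ : Gal(E''/K) => ((θ ⟨z, hz⟩ : E'') : L)) h2
    have h4 : ∀ θ : Gal(L/K), ((AlgEquiv.restrictNormalHom E'' θ ⟨z, hz⟩ : E'') : L) = θ z :=
      fun θ => AlgEquiv.restrictNormal_commutes θ E'' ⟨z, hz⟩
    simp only [h4] at h3
    exact h3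
  have hstab : ∀ (g : Gal(L/K)), ∀ z ∈ E'', g z ∈ E'' := by
    intro g z hz
    have h2 : (g.restrictNormal E'' ⟨z, hz⟩ : L) = g z :=
      AlgEquiv.restrictNormal_commutes g E'' ⟨z, hz⟩
    rw [← h2]
    exact (g.restrictNormal E'' ⟨z, hz⟩).2
  have hagree : ∀ φ ψ : Gal(L/K), (∀ z ∈ A, φ z = ρ z) → (∀ z ∈ A, ψ z = ρ z) →
      (∃ a : ℕ, φ ^ p ^ a = 1) → (∃ a : ℕ, ψ ^ p ^ a = 1) → ∀ z ∈ E'', φ z = ψ z := by
    intro φ ψ h1 h2 h3 h4 z hz
    obtain ⟨a, ha⟩ := h3
    obtain ⟨b, hb⟩ := h4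
    let π : Gal(L/K) →* Gal(E''/K) := AlgEquiv.restrictNormalHom E''
    have hker : π.ker = E''.fixingSubgroup := IntermediateField.restrictNormalHom_ker E''
    have h5 : ψ⁻¹ * φ ∈ A.fixingSubgroup := by
      rw [IntermediateField.mem_fixingSubgroup_iff]
      intro y hy
      have h6 : (ψ⁻¹ * φ : Gal(L/K)) y = (ψ⁻¹ : Gal(L/K)) (φ y) := rfl
      rw [h6, h1 y hy, ← h2 y hy, ← AlgEquiv.mul_apply, inv_mul_cancel]
      rfl
    have h6 : π ψ * π φ = π φ * π ψ := by
      refine central hp hpm hPC.conj (k := a) ?_ (π ψ)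
      rw [← map_pow, ha, map_one]
    have h7 : (ψ⁻¹ * φ) ^ p ^ (a + b) ∈ E''.fixingSubgroup := by
      rw [← hker, MonoidHom.mem_ker, map_pow, map_mul, map_inv]
      have hcomm : Commute (π ψ)⁻¹ (π φ) := Commute.inv_left h6
      rw [hcomm.mul_pow, inv_pow, ← map_pow, ← map_pow, pow_add, pow_mul φ, ha, one_pow,
        mul_comm (p ^ a), pow_mul ψ, hb, one_pow, map_one, inv_one, one_mul]
    have h8 := hA _ h5 _ h7
    rw [IntermediateField.mem_fixingSubgroup_iff] at h8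
    have h9 := h8 z hz
    have h10 : (ψ * (ψ⁻¹ * φ) : Gal(L/K)) z = ψ z := congrArg ψ h9
    rwa [mul_inv_cancel_left] at h10
  obtain ⟨v₀, hv₀⟩ := Pool.Agent.H420R3.TP_nonempty (M := L) (P := P) hP0
  obtain ⟨ρ₁, hρ₁A, hρ₁p, -⟩ := hlift v₀ hv₀
  refine pig2 K L P hP0 E' x s c₀ hEx hmp ρ₁ ?_ ?_
  · -- it moves `E'`
    by_contra hcon
    push Not at hcon
    obtain ⟨z, hz, hzρ⟩ := hρ1
    apply hzρ
    rw [← hρ₁A z hz]
    have h1 : E'' ≤ IntermediateField.fixedField (Subgroup.zpowers ρ₁) := by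
      rw [← hE'', IntermediateField.normalClosure_def'']
      refine iSup_le fun f => ?_
      intro y hy
      obtain ⟨e, he, rfl⟩ := hy
      have h2 : ρ₁ (f e) = f e := by
        have h3 := hcen ρ₁ hρ₁p f e (hle' he)
        rw [hcon e he] at h3
        exact h3.symm
      rw [IntermediateField.mem_fixedField_iff]
      intro g hg
      have h3 : Subgroup.zpowers ρ₁ ≤ MulAction.stabilizer Gal(L/K) (f e) := by
        rw [Subgroup.zpowers_le]
        exact h2
      exact h3 hg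
    have h2 := h1 (hAE hz)
    rw [IntermediateField.mem_fixedField_iff] at h2
    exact h2 ρ₁ (Subgroup.mem_zpowers ρ₁)
  · intro v hv
    obtain ⟨φ, hφA, hφp, hφ⟩ := hlift v hv
    exact ⟨φ, fun z hz => hagree φ ρ₁ hφA hρ₁A hφp hρ₁p z (hle' hz), hφ⟩

end

end

end Pool.Agent.U218.PG
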