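import Mathlib
import Pool.Agent.N715.AD.Fin3
import Pool.Agent.U218.PG.Tame2
import Pool.Agent.U218.PG.Wil

/-!
The constant lower bound for points of bounded degree over Galois extensions whose group has
exponent dividing `m` modulo the centre.
-/

set_option autoImplicit false
set_option linter.unusedSectionVars false

namespace Pool.Agent.U218.PG

open NumberField Module Filter Topology
open Pool.Agent.N715
open Pool.Agent.N715.AD hiding main
open Pool.Agent.W238.Leh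
open Pool.Agent.H627.LP (Wnd act_iter_smul)
open Pool.Agent.H627.LR (GR GoodK IC)
open Pool.Agent.H420R3 (mi nv TP NC ew)
open Pool.Agent.R829.DL (fod fod_iter fod_smul exists_rep canH_hom act_map iter_map)
open Pool.Agent.R829.BG (ax)
open Pool.Agent.N715.AB (bch act_bch_iter canH_bch Wnd_bch exists_model GD)
open Pool.Agent.N715.AC (CF exists_down finrank_fod_map Wnd_up ratio_mem norm_two
  log_norm_pos)
open Pool.Agent.U218.PC (PCE deg_anti)

noncomputable section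

/-- **the lower bound** -/
theorem main3 (m₀ : ℕ) (hm₀ : 1 ≤ m₀) (K : Type) [Field K] [NumberField K] (q : ℕ) (hq : 2 ≤ q)
    (F : Fin (1 + 1) → MvPolynomial (Fin (1 + 1)) K) (hF : ∀ i, (F i).IsHomogeneous q)
    (hmor : ∀ z : Fin (1 + 1) → AlgebraicClosure K, (∀ i, MvPolynomial.aeval z (F i) = 0) → z = 0)
    {d l : ℕ} (y : Fin d → Fin (1 + 1) → AlgebraicClosure K)
    (w : Fin l → Fin (1 + 1) → AlgebraicClosure K) (n e : Fin l → ℕ) (tt : Fin l → Fin d)
    (ν : Fin d → ℕ) (hν : ∀ i, 1 ≤ ν i)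
    (hL : ∀ i, ν i ≤ ((Finset.univ.filter fun j => tt j = i).image e).lcm id)
    (hy0 : ∀ i, y i ≠ 0) (hdist : ∀ i j, i ≠ j → wdg (y i) (y j) ≠ 0)
    (hdat : ∀ j, w j ≠ 0 ∧
      Deg (itF (fun a => MvPolynomial.map (algebraMap K (AlgebraicClosure K)) (F a)) (n j))
        (w j) (e j) ∧
      wdg (pt (itF (fun a => MvPolynomial.map (algebraMap K (AlgebraicClosure K)) (F a)) (n j))
        (w j)) (y (tt j)) = 0)
    (hsum : 2 < ∑ i, (1 - 1 / (ν i : ℝ)))
    (r : ℕ) :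
    ∃ C : ℕ, 1 ≤ C ∧ ∀ (E L : Type) [Field E] [NumberField E]
      [Field L] [NumberField L] [Algebra K E] [Algebra E L] [Algebra K L]
      [IsScalarTower K E L], PCE m₀ 1 K E →
      finrank E L ≤ r →
      ∀ x : Fin (1 + 1) → L, x ≠ 0 → Wnd F x →
      ∃ h : ℝ, Tendsto (fun n : ℕ => Height.logHeight ((act F)^[n] x) /
          ((finrank ℚ L : ℝ) * (q : ℝ) ^ n)) atTop (𝓝 h) ∧ 1 / (C : ℝ) ≤ h := by
  classical
  have hq0 : (0 : ℝ) < q := by exact_mod_cast (by omega : 0 < q)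
  obtain ⟨b₀, c, a, nb, A, hb0, hmod⟩ := exists_model K q hq F hF hmor 1
  obtain ⟨H, hH⟩ : ∃ H : Fin (1 + 1) → MvPolynomial (Fin (1 + 1)) K,
    H = fun i => MvPolynomial.C (b₀ : K) * F i := ⟨_, rfl⟩
  rw [← hH] at hmod
  have hb0' : (b₀ : K) ≠ 0 := RingOfIntegers.coe_ne_zero_iff.mpr hb0
  have hhom : ∀ i, (H i).IsHomogeneous q := by
    intro i
    have h7 := (MvPolynomial.isHomogeneous_C (Fin (1 + 1)) (b₀ : K)).mul (hF i)
    rw [zero_add] at h7
    rw [hH]
    exact h7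
  have hmor' : ∀ z : Fin (1 + 1) → AlgebraicClosure K, (∀ i, MvPolynomial.aeval z (H i) = 0) →
      z = 0 := by
    intro z hz
    apply hmor
    intro i
    have h1 := hz i
    simp only [hH, map_mul, MvPolynomial.aeval_C] at h1
    refine (mul_eq_zero.mp h1).resolve_left ?_
    exact (FaithfulSMul.algebraMap_eq_zero_iff K (AlgebraicClosure K)).not.mpr hb0'
  have hGDK : GD K H q c a nb A (finrank ℚ K * 1) := by
    have h1 := hmod K (by rw [finrank_self])
    have h2 : bch K H = H := by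
      funext i
      exact MvPolynomial.map_id _
    rwa [h2] at h1
  have hB := hGDK.hB
  have hc := hGDK.hc
  -- the integral model
  obtain ⟨p₀, P₀, hp₀, hP₀, hP₀0, hp₀P, -, hnp₀, -⟩ := prm1Lem K nb
  have hIC : ∀ i, IC (N := 1) (H i) :=
    (hGDK.good P₀ hP₀ hP₀0 (notMem_of_lt hp₀ hp₀P hGDK.hnb hnp₀)).int
  choose G hG using fun i => exists_lift (hIC i)
  have hGh : ∀ i, (G i).IsHomogeneous q := fun i => lift_hom (by rw [hG]; exact hhom i)
  obtain ⟨ι, hι⟩ : ∃ ι : K →+* AlgebraicClosure K, ι = algebraMap K (AlgebraicClosure K) :=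
    ⟨_, rfl⟩
  have hΦh : ∀ i, (MvPolynomial.map ι (F i)).IsHomogeneous q := fun i => (hF i).map ι
  have hιb : ι (b₀ : K) ≠ 0 := (map_ne_zero ι).mpr hb0'
  have hGΦ : (fun j => MvPolynomial.map ((algebraMap K (AlgebraicClosure K)).comp
      (algebraMap (𝓞 K) K)) (G j)) =
      fun j => MvPolynomial.C (ι (b₀ : K)) * MvPolynomial.map ι (F j) := by
    funext j
    rw [← hι, ← MvPolynomial.map_map, hG, hH, map_mul, MvPolynomial.map_C]
  rw [← hι] at hdat
  obtain ⟨N, hN, hcrt⟩ := crt2Lem K q G hGh (by omega) d l y w n e tt hy0 hdist (fun j => by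
      rw [hGΦ]
      exact ⟨(hdat j).1, deg_scale hΦh hιb (hdat j).2.1 (hdat j).2.2⟩)
  -- the prime
  obtain ⟨s, hs⟩ : ∃ s, s = r + 1 := ⟨_, rfl⟩
  have hs1 : 1 ≤ s := by omega
  obtain ⟨CT, hCT, htam⟩ := tame2 m₀ hm₀ K q hq H hhom hmor' a A hB s
  obtain ⟨p, P, hp, hP, hP0, hpP, hpP2, hnp, hNP⟩ := prm1Lem K (nb + s + N + CT + q + 3 + m₀)
  have hnot : ∀ m : ℕ, m ≠ 0 → m ≤ nb + s + N + CT + q + 3 + m₀ → (m : 𝓞 K) ∉ P := fun m hm hm' =>
    notMem_of_lt hp hpP hm (by omega)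
  have hGood : GoodK P H q := hGDK.good P hP hP0 (hnot nb hGDK.hnb (by omega))
  have hp0 : (0 : ℝ) < p := by exact_mod_cast hp.pos
  -- the parameters
  have hκ0 : (0 : ℝ) < finrank ℚ K := by exact_mod_cast finrank_pos
  have hPn := log_norm_pos (K := K) hP0
  have hE0 : 0 ≤ hC A a * (c + q : ℕ) := mul_nonneg hB.hC_nonneg (Nat.cast_nonneg _)
  obtain ⟨c₀, hc₀⟩ : ∃ c₀ : ℝ, c₀ = 1 / (p : ℝ) ^ 2 := ⟨_, rfl⟩
  have hc₀0 : 0 < c₀ := by rw [hc₀]; positivity
  obtain ⟨ω, hω⟩ : ∃ ω : ℝ, ω = Real.log P.absNorm / finrank ℚ K := ⟨_, rfl⟩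
  have hω0 : 0 < ω := by rw [hω]; positivity
  obtain ⟨S₁, S₂, b, t, R, hS₁, hb, ht, hR, hp1, hp2⟩ := par3 (hC A a * (c + q : ℕ)) c₀ ω s q hE0
    hc₀0 hω0 hs1 hq
  -- points of small degree
  obtain ⟨C₀, hC₀, hgen⟩ := Pool.Agent.W238.Leh.general K 1 q hq H hhom hmor' 1 one_pos
  have hlow : ∀ (L : Type) [Field L] [NumberField L] [Algebra K L]
      (x : Fin (1 + 1) → L), x ≠ 0 → Wnd H x →
      Real.exp (-(C₀ * ((finrank K K * finrank K (fod K x) : ℕ) : ℝ) ^ (((1 : ℕ) : ℝ) + 1))) ≤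
        canH H q x := by
    intro L _ _ _ x hx hw
    obtain ⟨y, hy, hyw, hyc⟩ := exists_down (k := K) hhom hx hw
    have h1 := (hgen (fod K x)).2.2.2 y hy hyw
    rw [hyc]
    rwa [← finrank_mul_finrank K K (fod K x)] at h1
  obtain ⟨D₀, hD₀⟩ : ∃ D₀, D₀ = R + 2 * b * b * q ^ (2 * b) + 1 := ⟨_, rfl⟩
  obtain ⟨ε₀, hε₀⟩ : ∃ ε₀ : ℝ, ε₀ = Real.exp (-(C₀ * (D₀ : ℝ) ^ (((1 : ℕ) : ℝ) + 1))) := ⟨_, rfl⟩
  have hε₀0 : 0 < ε₀ := by rw [hε₀]; exact Real.exp_pos _
  obtain ⟨ε₁, hε₁⟩ : ∃ ε₁ : ℝ, ε₁ = ε₀ / (q : ℝ) ^ (2 * b) := ⟨_, rfl⟩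
  have hε₁0 : 0 < ε₁ := by rw [hε₁]; positivity
  obtain ⟨ε₂, hε₂⟩ : ∃ ε₂ : ℝ, ε₂ = 1 / ((R + 2 * b + 1 : ℕ) * (q : ℝ) ^ b) := ⟨_, rfl⟩
  have hε₂0 : 0 < ε₂ := by rw [hε₂]; positivity
  obtain ⟨ε₃, hε₃⟩ : ∃ ε₃ : ℝ, ε₃ = 1 / (CT * (P.absNorm : ℝ) ^ CT) := ⟨_, rfl⟩
  have hCT0 : (0 : ℝ) < CT := by exact_mod_cast hCT
  have hN0 : (0 : ℝ) < P.absNorm := by
    have := norm_two (K := K) hP0
    exact_mod_cast (by omega : 0 < P.absNorm)
  have hε₃0 : 0 < ε₃ := by rw [hε₃]; positivity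
  -- the core
  have hcore : ∀ (L : Type) [Field L] [NumberField L] [Algebra K L] [IsGalois K L]
      (E : IntermediateField K L) (_ : PCE m₀ 1 K E) (x : Fin (1 + 1) → L), x ≠ 0 →
      (x 1 ≠ 0 → (minpoly E (x 0 / x 1)).natDegree ≤ s) → Wnd H x →
      min ε₁ (min ε₂ ε₃) ≤ canH H q x := by
    intro L _ _ _ _ E hPCE x hx hmp hw
    have hfd : FiniteDimensional K L := Pool.Agent.R829.DL.fd_inter K L
    have hpos : 0 < canH H q x := lt_of_lt_of_le (Real.exp_pos _) (hlow L x hx hw)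
    by_cases hsm : finrank K (fod K ((act H)^[2 * b] x)) ≤ D₀
    · refine (min_le_left _ _).trans ?_
      have hw' : Wnd H ((act H)^[2 * b] x) := by
        rintro ⟨m, n, hmn, d, hd, hd'⟩
        rw [← Function.iterate_add_apply, ← Function.iterate_add_apply] at hd'
        exact hw ⟨m + 2 * b, n + 2 * b, by omega, d, hd, hd'⟩
      have h1 := hlow L ((act H)^[2 * b] x) (hB.iter_ne_zero hx _) hw'
      have hcan : canH H q ((act H)^[2 * b] x) = (q : ℝ) ^ (2 * b) * canH H q x :=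
        hB.canH_iter hq hx (2 * b)
      rw [hcan, finrank_self, one_mul] at h1
      rw [hε₁, div_le_iff₀ (by positivity), mul_comm]
      refine le_trans ?_ h1
      rw [hε₀]
      apply Real.exp_le_exp.mpr
      apply neg_le_neg
      apply mul_le_mul_of_nonneg_left _ hC₀.le
      apply Real.rpow_le_rpow (by positivity) _ (by positivity)
      exact_mod_cast hsm
    push Not at hsm
    have hDle : finrank K (fod K ((act H)^[2 * b] x)) ≤ finrank K (fod K x) := by
      have h1 : fod K ((act H)^[2 * b] x) ≤ fod K ((act H)^[0] x) :=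
        fod_iter hB hhom hx (Nat.zero_le _)
      exact LinearMap.finrank_le_finrank_of_injective
        (f := (IntermediateField.inclusion h1).toLinearMap)
        (IntermediateField.inclusion_injective h1)
    have hx1 : x 1 ≠ 0 := by
      intro h0
      have h1 := Pool.Agent.N715.AB.fod_inf (K := K) h0
      rw [h1] at hDle
      omega
    have hmp1 := hmp hx1
    obtain ⟨E', hE'⟩ : ∃ E' : IntermediateField K L,
      E' = E ⊓ IntermediateField.adjoin K {x 0 / x 1} := ⟨_, rfl⟩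
    have hEgal : IsGalois K E := hPCE.gal
    have hE'le : E' ≤ E := hE' ▸ inf_le_left
    have hEx : E' ≤ IntermediateField.adjoin K {x 0 / x 1} := by
      rw [hE']
      exact inf_le_right
    have hmp' : (minpoly E' (x 0 / x 1)).natDegree ≤ s := by
      rw [hE']
      exact (AC.IntL.deg_le E (x 0 / x 1)).trans hmp1
    have hle' : E' ≤ IntermediateField.normalClosure K E' L :=
      IntermediateField.le_normalClosure E'
    have hle'' : IntermediateField.normalClosure K E' L ≤ E := by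
      conv_rhs => rw [← IntermediateField.normalClosure_of_normal E]
      exact IntermediateField.normalClosure_mono E' E hE'le
    have hnor : IsGalois K (IntermediateField.normalClosure K E' L) := ⟨⟩
    have hPCE'' : PCE m₀ 1 K (IntermediateField.normalClosure K E' L) :=
      hPCE.of_algHom (IntermediateField.inclusion hle'')
    have hmp'' : (minpoly (IntermediateField.normalClosure K E' L) (x 0 / x 1)).natDegree ≤ s :=
      (deg_anti hle' _).trans hmp'
    by_cases htm : ∀ p' : ℕ, p'.Prime → (p' : 𝓞 K) ∈ P →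
        ∀ u ∈ TP (IntermediateField.normalClosure K E' L) P,
        ¬ p' ∣ (mi u).ramificationIdx (𝓞 K)
    · -- the tame case
      refine (min_le_right _ _).trans ((min_le_right _ _).trans ?_)
      rw [hε₃]
      exact htam L _ hPCE'' x hx1 hw hmp'' P hP0 (hnot CT (by omega) (by omega)) htm
    -- the wild case
    push Not at htm
    obtain ⟨p', hp', hp'P, u, hu, hdvd⟩ := htm
    obtain rfl : p = p' := prime_unique hp hp' hpP hp'P
    refine (min_le_right _ _).trans ((min_le_left _ _).trans ?_)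
    by_contra hcon
    push Not at hcon
    have hpm : ¬ p ∣ m₀ := by
      intro h
      have := Nat.le_of_dvd (by omega) h
      omega
    obtain ⟨τ, hτ1, hτ2⟩ := wild P hP0 p hp (by omega) hpP hpP2 hNP hpm E' hPCE'' (x 0 / x 1) s
      hEx hmp' (by omega) hu hdvd c₀ hc₀
    have hax : ax H x 0 = x 0 / x 1 := rfl
    refine local_wild2 twoPLem bad2Lem AC.traceDesc2 cloLem wroLem nrmLem invLem valLem aclLem
      gauLem infLem homLem (frmLem binLem) (ml3Lem binLem chrLem itfLem (itrLem chrLem)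
      (dmlLem binLem chrLem itfLem) (ml1Lem binLem) (ml2Lem binLem chrLem itfLem
      (dmlLem binLem chrLem itfLem))) binLem
      (sumLem binLem) (nzjLem binLem) itfLem gnzLem hB hq hhom hc hP0 hGood (G := G) (n := n) (e := e) (t' := tt)
      (fun i => (hG i).symm) hGh (fun j hj1 hj2 => hnot j (by omega) (by omega)) hν hL hsum ?_ hx
      hpos (τ := τ) (r := s) (b := b) (t := t)
      (S₁ := S₁) (S₂ := S₂) (R := R) (c₀ := c₀) hc₀0 hs1 hτ1 ?_ hb hS₁ ht hR ?_ ?_ ?_ ?_ ?_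
    · intro A' ψ hψ1 hψ2
      refine hcrt A' ψ hψ1 ?_
      intro h0
      have h1 : red A' (ψ (N : 𝓞 K)) = 0 := by
        rw [map_natCast, map_natCast]
        exact h0
      exact hnot N hN (by omega) ((hψ2 _).mp h1)
    · exact hτ2
    · rw [← hω]
      have h1 : (S₁ : ℝ) * (c₀ * ω) / (4 * s) ≤ S₁ * (c₀ * ω) / (2 * s) := by
        have hs0 : (0 : ℝ) < s := by exact_mod_cast hs1
        apply div_le_div_of_nonneg_left (by positivity) (by positivity)
        linarith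
      linarith
    · rw [← hω]
      linarith
    · omega
    · omega
    · rw [hε₂, lt_div_iff₀ (by positivity)] at hcon
      have h1 : ((R + 2 * b : ℕ) : ℝ) ≤ (R + 2 * b + 1 : ℕ) := by
        exact_mod_cast (by omega : R + 2 * b ≤ R + 2 * b + 1)
      have h2 : 0 < (q : ℝ) ^ b * canH H q x := by positivity
      have h3 := mul_le_mul_of_nonneg_right h1 h2.le
      nlinarith
  -- the constant
  have hmin0 : 0 < min ε₁ (min ε₂ ε₃) := lt_min hε₁0 (lt_min hε₂0 hε₃0)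
  obtain ⟨C, hC⟩ := exists_nat_ge (1 / min ε₁ (min ε₂ ε₃))
  refine ⟨C + 1, by omega, ?_⟩
  have hCle : 1 / ((C + 1 : ℕ) : ℝ) ≤ min ε₁ (min ε₂ ε₃) := by
    rw [div_le_iff₀ (by positivity)]
    rw [div_le_iff₀ hmin0] at hC
    push_cast
    nlinarith
  intro E₀ L₀ _ _ _ _ _ _ _ _ hPCE₀ hr x₀ hx₀ hw₀
  have hB' : Bds (fun i => MvPolynomial.C (b₀ : K) * F i) q A a := by
    rw [← hH]
    exact hB
  obtain ⟨hw1, hlim⟩ := Pool.Agent.H627.LR.transfer_scale hb0 hF hq hB' hx₀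
  rw [← hH] at hw1 hlim
  refine ⟨canH H q x₀, hlim, hCle.trans ?_⟩
  have hw₀' := hw1 hw₀
  -- the Galois closure
  let L := NC K L₀
  have hfd₀ : FiniteDimensional K L₀ := Pool.Agent.R829.DL.fd_inter K L₀
  have hfd₁ : FiniteDimensional E₀ L₀ := Pool.Agent.R829.DL.fd_inter E₀ L₀
  have hfd : FiniteDimensional K L := Pool.Agent.R829.DL.fd_inter K L
  let φ : L₀ →ₐ[K] L := IsScalarTower.toAlgHom K L₀ L
  let x : Fin (1 + 1) → L := fun i => φ (x₀ i)
  have hx : x ≠ 0 := by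
    intro h
    apply hx₀
    funext i
    have h1 : φ (x₀ i) = 0 := congrFun h i
    exact (map_eq_zero φ).mp h1
  have hw : Wnd H x := Wnd_up hB φ hx₀ hw₀'
  have hcan : canH H q x = canH H q x₀ := canH_hom φ H q x₀
  let ψ : E₀ →ₐ[K] L := φ.comp (IsScalarTower.toAlgHom K E₀ L₀)
  let E : IntermediateField K L := ψ.fieldRange
  let e' : E₀ ≃ₐ[K] E := AlgEquiv.ofInjectiveField ψ
  have hfdE₀ : FiniteDimensional K E₀ := Module.Finite.of_restrictScalars_finite ℚ K E₀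
  have hEgal₀ : IsGalois K E₀ := hPCE₀.gal
  have hEgal : IsGalois K E := IsGalois.of_algEquiv e'
  have hEab : PCE m₀ 1 K E := hPCE₀.of_algHom (e'.symm : E →ₐ[K] E₀)
  have hmp : ∀ z₀ : L₀, (minpoly E (φ z₀)).natDegree ≤ s := by
    intro z₀
    have hint : IsIntegral E₀ z₀ := Algebra.IsIntegral.isIntegral z₀
    have h1 : Polynomial.aeval (φ z₀) ((minpoly E₀ z₀).map (e' : E₀ →+* E)) = 0 := by
      have h2 : Polynomial.aeval (φ z₀) ((minpoly E₀ z₀).map (e' : E₀ →+* E)) =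
          φ (Polynomial.aeval z₀ (minpoly E₀ z₀)) := by
        rw [Polynomial.aeval_def, Polynomial.eval₂_map, Polynomial.aeval_def]
        exact (Polynomial.hom_eval₂ (minpoly E₀ z₀) (algebraMap E₀ L₀) (φ : L₀ →+* L) z₀).symm
      rw [h2, minpoly.aeval, map_zero]
    have h3 : ((minpoly E₀ z₀).map (e' : E₀ →+* E)) ≠ 0 :=
      (Polynomial.Monic.map _ (minpoly.monic hint)).ne_zero
    have h4 := Polynomial.natDegree_le_natDegree (minpoly.degree_le_of_ne_zero E (φ z₀) h3 h1)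
    have h5 : (minpoly E₀ z₀).natDegree ≤ finrank E₀ L₀ := minpoly.natDegree_le z₀
    rw [Polynomial.natDegree_map] at h4
    omega
  have hmp' : x 1 ≠ 0 → (minpoly E (x 0 / x 1)).natDegree ≤ s := by
    intro _
    have h1 : x 0 / x 1 = φ (x₀ 0 / x₀ 1) := (map_div₀ φ _ _).symm
    rw [h1]
    exact hmp _
  have h1 := hcore L E hEab x hx hmp' hw
  rwa [hcan] at h1

end

end Pool.Agent.U218.PG
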